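import Pool.Agent.H662.GA.Stm

/-! EX: a 1-generic set below the halting set. -/

set_option autoImplicit false
open Classical

namespace Pool.Agent.H662.GA

namespace XEX

/-- the strings of the construction -/
def sg (F : ℕ × Str → Str) : ℕ → Str
  | 0 => []
  | e + 1 => F (e, sg F e)

/-- the set -/
def AA (F : ℕ × Str → Str) : Set ℕ := {n | (sg F (n + 1))[n]? = some true}

variable {F : ℕ × Str → Str}

lemma sg_mono (h : ∀ e σ, σ <+: F (e, σ) ∧ σ.length < (F (e, σ)).length) {e e' : ℕ}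
    (hee : e ≤ e') : sg F e <+: sg F e' := by
  induction e', hee using Nat.le_induction with
  | base => exact List.prefix_rfl
  | succ n _ ih => exact ih.trans (h n (sg F n)).1

lemma sg_len (h : ∀ e σ, σ <+: F (e, σ) ∧ σ.length < (F (e, σ)).length) (e : ℕ) :
    e ≤ (sg F e).length := by
  induction e with
  | zero => exact Nat.zero_le _
  | succ n ih => exact lt_of_le_of_lt ih (h n (sg F n)).2

lemma get_eq {l1 l2 l : Str} (h1 : l1 <+: l) (h2 : l2 <+: l) {i : ℕ} (hi1 : i < l1.length)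
    (hi2 : i < l2.length) : l1[i]? = l2[i]? := by
  rw [List.prefix_iff_getElem?] at h1 h2
  have e1 := h1 i hi1
  have e2 := h2 i hi2
  rw [List.getElem?_eq_getElem hi1, List.getElem?_eq_getElem hi2, ← e1, ← e2]

lemma pfx_eq (h : ∀ e σ, σ <+: F (e, σ) ∧ σ.length < (F (e, σ)).length) {e : ℕ} {τ : Str}
    (hτ : τ <+: sg F e) : pfx (AA F) τ.length = τ := by
  refine List.ext_getElem (by simp [pfx]) fun i h1 h2 => ?_
  have h3 : i < (sg F (i + 1)).length := sg_len h (i + 1)
  have h4 : (sg F (i + 1))[i]? = τ[i]? :=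
    get_eq (sg_mono h (le_max_right e (i + 1))) (hτ.trans (sg_mono h (le_max_left e (i + 1))))
      h3 h2
  have h5 : (pfx (AA F) τ.length)[i] = decide (i ∈ AA F) := by simp [pfx]
  rw [h5]
  have h6 : i ∈ AA F ↔ τ[i] = true := by
    show (sg F (i + 1))[i]? = some true ↔ _
    rw [h4, List.getElem?_eq_getElem h2]
    exact Option.some_inj
  by_cases hi : i ∈ AA F
  · rw [decide_eq_true hi, h6.1 hi]
  · rw [decide_eq_false hi]
    exact (Bool.eq_false_of_not_eq_true fun hh => hi (h6.2 hh)).symm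

lemma gen (h : ∀ e σ, σ <+: F (e, σ) ∧ σ.length < (F (e, σ)).length)
    (h' : ∀ e σ, (∃ τ, σ <+: τ ∧ We e τ) → ∃ τ, σ <+: τ ∧ τ <+: F (e, σ) ∧ We e τ) :
    Gen1 (AA F) := by
  intro e
  by_cases hc : ∃ τ, sg F e <+: τ ∧ We e τ
  · obtain ⟨τ, _, h2, h3⟩ := h' e (sg F e) hc
    refine Or.inl ⟨τ.length, ?_⟩
    rw [pfx_eq (e := e + 1) h h2]
    exact h3
  · refine Or.inr ⟨(sg F e).length, fun τ hτ hW => hc ⟨τ, ?_, hW⟩⟩
    rwa [pfx_eq (e := e) h List.prefix_rfl] at hτ

/-- the lookup -/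
def lk (n : ℕ) : ℕ :=
  if ((Encodable.decode (α := Str) n.unpair.2).getD [])[n.unpair.1]? = some true then 1 else 0

lemma lk_prim : Primrec lk := by
  have h1 : Primrec fun n : ℕ => (Encodable.decode (α := Str) n.unpair.2).getD [] :=
    Primrec.option_getD.comp (Primrec.decode.comp (Primrec.snd.comp Primrec.unpair))
      (Primrec.const [])
  have h2 : Primrec fun n : ℕ =>
      ((Encodable.decode (α := Str) n.unpair.2).getD [])[n.unpair.1]? :=
    Primrec.list_getElem?.comp h1 (Primrec.fst.comp Primrec.unpair)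
  exact Primrec.ite (Primrec.eq.comp h2 (Primrec.const (some true))) (Primrec.const 1)
    (Primrec.const 0)

lemma lk_pair (n : ℕ) : lk (Nat.pair n (Encodable.encode (sg F (n + 1)))) =
    if n ∈ AA F then 1 else 0 := by
  unfold lk
  rw [Nat.unpair_pair, Encodable.encodek]
  by_cases hx : n ∈ AA F
  · rw [if_pos hx]
    exact if_pos hx
  · rw [if_neg hx]
    exact if_neg hx

lemma sg_rec (O : Set (ℕ →. ℕ)) (hF : Nat.RecursiveIn O (fun n : ℕ => Part.some (Encodable.encode
    (F ((Encodable.decode (α := ℕ × Str) n).getD (0, [])))))) :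
    Nat.RecursiveIn O (fun n : ℕ => Part.some (Encodable.encode (sg F n))) := by
  have h0 : Nat.RecursiveIn O (fun _ : ℕ => Part.some (Encodable.encode ([] : Str))) :=
    Nat.RecursiveIn.zero.of_eq fun n => rfl
  have h1 := Nat.RecursiveIn.comp hF (Nat.RecursiveIn.right (O := O))
  have h2 := Nat.RecursiveIn.prec h0 h1
  have h3 : Nat.RecursiveIn O (fun n : ℕ => Part.some (Nat.pair 0 n)) :=
    Nat.Primrec.recursiveIn (f := fun n => Nat.pair 0 n)
      (Nat.Primrec.pair (Nat.Primrec.const 0) Nat.Primrec.id)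
  refine (Nat.RecursiveIn.comp h2 h3).of_eq fun n => ?_
  rw [Part.bind_eq_bind, Part.bind_some]
  simp only [Nat.unpair_pair]
  induction n with
  | zero => rfl
  | succ n ih =>
    simp only [ih]
    simp [sg]

end XEX

open XEX in
theorem t_EX (hST : S_ST) : S_EX := by
  obtain ⟨F, h1, h2, h3⟩ := hST
  refine ⟨AA F, gen h2 h3, ?_⟩
  refine RecursiveIn.iff_nat.2 ?_
  have k1 := sg_rec {hlt} (RecursiveIn.iff_nat.1 h1)
  have k2 := Nat.RecursiveIn.comp k1 (Nat.RecursiveIn.succ (O := {hlt}))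
  have k3 : Nat.RecursiveIn {hlt} (fun n : ℕ => Part.some n) :=
    Nat.Primrec.recursiveIn (f := fun n => n) Nat.Primrec.id
  have k4 := Nat.RecursiveIn.pair k3 k2
  have k5 : Nat.RecursiveIn {hlt} (fun n : ℕ => Part.some (lk n)) :=
    Nat.Primrec.recursiveIn (Primrec.nat_iff.1 lk_prim)
  refine (Nat.RecursiveIn.comp k5 k4).of_eq fun n => ?_
  simp [chi, Seq.seq, lk_pair]

end Pool.Agent.H662.GA
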