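import Pool.Agent.H662.GA.Stm

set_option autoImplicit false

namespace Pool.Agent.H662.GA

theorem t_FE : S_FE := by
  intro s
  have h0 : Encodable.encode s = Encodable.encode s.1 := rfl
  have h1 : ((fun l : List ℕ => (l : Multiset ℕ)) <$>
      Encodable.decode (α := List ℕ) (Encodable.encode s.1)) = some s.1 :=
    Encodable.encodek (s.1 : Multiset ℕ)
  rw [Denumerable.decode_eq_ofNat, Option.map_eq_map, Option.map_some] at h1
  have h2 : ((Denumerable.ofNat (List ℕ) (Encodable.encode s.1) : List ℕ) : Multiset ℕ) = s.1 :=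
    Option.some.inj h1
  refine ⟨Denumerable.ofNat (List ℕ) (Encodable.encode s.1), ?_, fun y => ?_⟩
  · rw [h0]
    exact (Denumerable.encode_ofNat (α := List ℕ) _).symm
  · rw [← Multiset.mem_coe, h2]
    rfl

end Pool.Agent.H662.GA
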