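import Pool.Agent.H662.GA.Stm

set_option autoImplicit false

/-!
# NB: the neighbourhood function is computable (helper782 for helper662)
-/

namespace Pool.Agent.H662.GA

open Nat.Partrec (Code)
open Nat.Partrec.Code (evaln evaln_complete primrec_evaln exists_code)
open Encodable Denumerable

namespace XNB

/-- membership test -/
def mb (l : List ℕ) (y : ℕ) : Bool := decide (l.idxOf y < l.length)

theorem mb_iff (l : List ℕ) (y : ℕ) : mb l y = true ↔ y ∈ l := by
  unfold mb
  rw [decide_eq_true_iff, List.idxOf_lt_length_iff]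

theorem mb_comp : Computable₂ mb := by
  have h1 : Primrec fun a : List ℕ × ℕ => a.1.idxOf a.2 :=
    Primrec.list_idxOf.comp Primrec.snd Primrec.fst
  have h2 : Primrec fun a : List ℕ × ℕ => a.1.length := Primrec.list_length.comp Primrec.fst
  have h3 : Primrec fun a : List ℕ × ℕ => if a.1.idxOf a.2 < a.1.length then true else false :=
    Primrec.ite (Primrec.nat_lt.comp h1 h2) (Primrec.const _) (Primrec.const _)
  refine (h3.of_eq fun a => ?_).to_comp
  unfold mb
  by_cases h : a.1.idxOf a.2 < a.1.length
  · rw [if_pos h, decide_eq_true h]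
  · rw [if_neg h, decide_eq_false h]

/-- the value after `t` steps -/
def E (c : Code) (σ : Str) (x t : ℕ) : Option ℕ := evaln t c (encode (σ, x))

theorem E_comp (c : Code) : Computable (fun a : (Str × ℕ) × ℕ => E c a.1.1 a.1.2 a.2) := by
  have h : Computable (fun a : (Str × ℕ) × ℕ => ((a.2, c), encode a.1)) :=
    (Computable.snd.pair (Computable.const c)).pair (Computable.encode.comp Computable.fst)
  exact primrec_evaln.to_comp.comp h

/-- projections -/
def px (m : ℕ) : ℕ := m.unpair.1

def py (m : ℕ) : ℕ := m.unpair.2.unpair.1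

def pt (m : ℕ) : ℕ := m.unpair.2.unpair.2

theorem px_comp : Computable px := Computable.fst.comp Computable.unpair

theorem py_comp : Computable py :=
  Computable.fst.comp (Computable.unpair.comp (Computable.snd.comp Computable.unpair))

theorem pt_comp : Computable pt :=
  Computable.snd.comp (Computable.unpair.comp (Computable.snd.comp Computable.unpair))

/-- decoding of lists -/
def dl (v : ℕ) : List ℕ := ofNat (List ℕ) v

theorem dl_comp : Computable dl := Computable.ofNat (List ℕ)

theorem enc_dl (v : ℕ) : encode (dl v) = v := encode_ofNat v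

theorem dl_enc (l : List ℕ) : dl (encode l) = l := ofNat_encode l

/-- decoding of strings -/
def ds (v : ℕ) : Str := (decode (α := Str) v).getD []

theorem ds_comp : Computable ds :=
  Computable.option_getD Computable.decode (Computable.const ([] : Str))

theorem ds_enc (σ : Str) : ds (encode σ) = σ := by
  unfold ds
  rw [encodek, Option.getD_some]

/-- the test -/
def tst (b : ℕ × ℕ → Bool) (m v : ℕ) : Option ℕ :=
  bif mb (dl v) (py m) then none else bif b (px m, py m) then some 0 else none

theorem tst_comp {b : ℕ × ℕ → Bool} (hb : Computable b) :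
    Computable (fun a : ℕ × ℕ => tst b a.1 a.2) := by
  have m1 : Computable (fun a : ℕ × ℕ => mb (dl a.2) (py a.1)) :=
    mb_comp.comp (dl_comp.comp Computable.snd) (py_comp.comp Computable.fst)
  have m2 : Computable (fun a : ℕ × ℕ => b (px a.1, py a.1)) :=
    hb.comp ((px_comp.comp Computable.fst).pair (py_comp.comp Computable.fst))
  exact Computable.cond m1 (Computable.const _) (Computable.cond m2 (Computable.const _)
    (Computable.const _))

/-- the search for a wrong value -/
def hB (c : Code) (b : ℕ × ℕ → Bool) (σ : Str) (m : ℕ) : Option ℕ :=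
  (E c σ (px m) (pt m)).bind fun v => tst b m v

theorem hB_h2 (c : Code) : Computable (fun a : Str × ℕ => E c a.1 (px a.2) (pt a.2)) := by
  have h1 : Computable (fun a : Str × ℕ => ((a.1, px a.2), pt a.2)) :=
    (Computable.fst.pair (px_comp.comp Computable.snd)).pair (pt_comp.comp Computable.snd)
  have h2 := (E_comp c).comp h1
  exact h2

theorem hB_h3' {b : ℕ × ℕ → Bool} (hb : Computable b) :
    Computable (fun a : (Str × ℕ) × ℕ => tst b a.1.2 a.2) := by
  have h1 : Computable (fun a : (Str × ℕ) × ℕ => (a.1.2, a.2)) :=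
    (Computable.snd.comp Computable.fst).pair Computable.snd
  have h2 := (tst_comp hb).comp h1
  exact h2

theorem hB_h3 {b : ℕ × ℕ → Bool} (hb : Computable b) :
    Computable₂ (fun (a : Str × ℕ) (v : ℕ) => tst b a.2 v) := hB_h3' hb

theorem hB_comp (c : Code) {b : ℕ × ℕ → Bool} (hb : Computable b) : Computable₂ (hB c b) := by
  have h := Computable.option_bind (hB_h2 c) (hB_h3 hb)
  exact h

/-- the search for a value -/
def hL (c : Code) (ρ : Str) (x m : ℕ) : Option (List ℕ) :=
  (E c (ρ ++ ds (px m)) x (py m)).map dl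

theorem hL_h2 (c : Code) (ρ : Str) :
    Computable (fun a : ℕ × ℕ => E c (ρ ++ ds (px a.2)) a.1 (py a.2)) := by
  have h0 : Computable (fun a : ℕ × ℕ => ρ ++ ds (px a.2)) :=
    Computable.list_append.comp (Computable.const ρ)
      (ds_comp.comp (px_comp.comp Computable.snd))
  have h1 : Computable (fun a : ℕ × ℕ => ((ρ ++ ds (px a.2), a.1), py a.2)) :=
    (h0.pair Computable.fst).pair (py_comp.comp Computable.snd)
  have h2 := (E_comp c).comp h1
  exact h2

theorem hL_h3 : Computable₂ (fun (_ : ℕ × ℕ) (v : ℕ) => dl v) := dl_comp.comp Computable.snd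

theorem hL_comp (c : Code) (ρ : Str) : Computable₂ (hL c ρ) := by
  have h := Computable.option_map (hL_h2 c ρ) hL_h3
  exact h

/-- the filtered list -/
def flt (b : ℕ × ℕ → Bool) (x : ℕ) (l : List ℕ) (n : ℕ) : List ℕ :=
  Nat.rec [] (fun j acc => acc ++ ((l[j]?).bind
    (fun y => bif b (x, y) then some [y] else none)).getD []) n

theorem flt_comp {b : ℕ × ℕ → Bool} (hb : Computable b) {L : ℕ → List ℕ} (hL : Computable L) :
    Computable (fun x => flt b x (L x) (L x).length) := by
  have e1 : Computable (fun a : ℕ × (ℕ × List ℕ) => (L a.1)[a.2.1]?) :=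
    Computable.list_getElem?.comp (hL.comp Computable.fst) (Computable.fst.comp Computable.snd)
  have e2 : Computable₂ (fun (a : ℕ × (ℕ × List ℕ)) (y : ℕ) =>
      bif b (a.1, y) then some [y] else (none : Option (List ℕ))) := by
    have f1 : Computable (fun a : (ℕ × (ℕ × List ℕ)) × ℕ => b (a.1.1, a.2)) :=
      hb.comp ((Computable.fst.comp Computable.fst).pair Computable.snd)
    have f2 : Computable (fun a : (ℕ × (ℕ × List ℕ)) × ℕ => some [a.2]) :=
      Computable.option_some.comp
        (Computable.list_cons.comp Computable.snd (Computable.const ([] : List ℕ)))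
    exact Computable.cond f1 f2 (Computable.const _)
  have e3 : Computable (fun a : ℕ × (ℕ × List ℕ) => a.2.2 ++ (((L a.1)[a.2.1]?).bind
      (fun y => bif b (a.1, y) then some [y] else none)).getD []) :=
    Computable.list_append.comp (Computable.snd.comp Computable.snd)
      (Computable.option_getD (Computable.option_bind e1 e2) (Computable.const ([] : List ℕ)))
  exact Computable.nat_rec (Computable.list_length.comp hL) (Computable.const ([] : List ℕ))
    (h := fun (x : ℕ) (p : ℕ × List ℕ) => p.2 ++ (((L x)[p.1]?).bind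
      (fun y => bif b (x, y) then some [y] else none)).getD []) e3

theorem mem_flt (b : ℕ × ℕ → Bool) (x : ℕ) (l : List ℕ) (y n : ℕ) :
    y ∈ flt b x l n ↔ ∃ j < n, l[j]? = some y ∧ b (x, y) = true := by
  induction n with
  | zero =>
    constructor
    · intro h
      exact absurd h List.not_mem_nil
    · rintro ⟨j, hj, -⟩
      exact absurd hj (Nat.not_lt_zero j)
  | succ n ih =>
    have h1 : flt b x l (n + 1) = flt b x l n ++ ((l[n]?).bind
      (fun y => bif b (x, y) then some [y] else none)).getD [] := rfl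
    have h2 : y ∈ ((l[n]?).bind (fun y => bif b (x, y) then some [y] else none)).getD [] ↔
        l[n]? = some y ∧ b (x, y) = true := by
      cases hl : l[n]? with
      | none => simp
      | some z =>
        cases hb : b (x, z) with
        | true =>
          simp only [Option.bind_some, hb, cond_true, Option.getD_some, List.mem_singleton,
            Option.some.injEq]
          constructor
          · rintro rfl
            exact ⟨rfl, hb⟩
          · rintro ⟨rfl, -⟩
            rfl
        | false =>
          simp only [Option.bind_some, hb, cond_false, Option.getD_none, List.not_mem_nil,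
            false_iff, Option.some.injEq, not_and]
          rintro rfl
          simp [hb]
    rw [h1, List.mem_append, ih, h2]
    constructor
    · rintro (⟨j, hj, h⟩ | h)
      · exact ⟨j, by omega, h⟩
      · exact ⟨n, by omega, h⟩
    · rintro ⟨j, hj, h⟩
      rcases Nat.lt_succ_iff_lt_or_eq.mp hj with h' | h'
      · exact Or.inl ⟨j, h', h⟩
      · subst h'
        exact Or.inr h

theorem mem_flt' (b : ℕ × ℕ → Bool) (x : ℕ) (l : List ℕ) (y : ℕ) :
    y ∈ flt b x l l.length ↔ y ∈ l ∧ b (x, y) = true := by
  rw [mem_flt]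
  constructor
  · rintro ⟨j, hj, h1, h2⟩
    exact ⟨List.mem_iff_getElem?.mpr ⟨j, h1⟩, h2⟩
  · rintro ⟨h1, h2⟩
    obtain ⟨j, hj⟩ := List.mem_iff_getElem?.mp h1
    refine ⟨j, ?_, hj, h2⟩
    obtain ⟨h3, -⟩ := List.getElem?_eq_some_iff.mp hj
    exact h3

theorem pfx_mono (A : Set ℕ) {k k' : ℕ} (h : k ≤ k') : pfx A k <+: pfx A k' := by
  unfold pfx
  obtain ⟨r, rfl⟩ := Nat.exists_eq_add_of_le h
  rw [List.range_add, List.map_append]
  exact List.prefix_append _ _

end XNB

open XNB

theorem t_NB (hUSE : S_USE) (hFE : S_FE) : S_NB := by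
  rintro A hA G ⟨hdec, hG⟩ ⟨N, hN, hred⟩
  obtain ⟨Φ, hΦ, hmono, hval⟩ := hUSE A _ hred
  obtain ⟨c, hc⟩ := exists_code.1 hΦ
  have key : ∀ (σ : Str) (x v : ℕ), v ∈ Φ (σ, x) ↔ ∃ t, E c σ x t = some v := by
    intro σ x v
    have h1 : (∃ t, E c σ x t = some v) ↔ v ∈ c.eval (encode (σ, x)) := evaln_complete.symm
    rw [h1, hc]
    simp only [encodek, Part.coe_some, Part.bind_some, Part.mem_map_iff]
    constructor
    · intro h
      exact ⟨v, h, rfl⟩
    · rintro ⟨w, hw, rfl⟩
      exact hw
  -- values at initial segments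
  have hpf : ∀ (k x v : ℕ), v ∈ Φ (pfx A k, x) → v = encode (N x) := by
    intro k x v hv
    exact Part.mem_some_iff.mp ((hval x v).mpr ⟨k, hv⟩)
  set b : ℕ × ℕ → Bool := fun p => decide (G.Adj p.1 p.2) with hb
  have hbc : Computable b := hG
  have hb_iff : ∀ x y, b (x, y) = true ↔ G.Adj x y := fun x y => by
    rw [hb]
    exact decide_eq_true_iff
  -- the c.e. set
  have hp : Partrec (fun σ : Str => Nat.rfindOpt (hB c b σ)) := Partrec.rfindOpt (hB_comp c hbc)
  obtain ⟨e0, he0⟩ := exists_code.1 hp
  have hWe : ∀ σ : Str, We (encode e0) σ ↔ ∃ (x y : ℕ) (l : List ℕ),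
      encode l ∈ Φ (σ, x) ∧ y ∉ l ∧ G.Adj x y := by
    intro σ
    unfold We
    rw [ofNat_encode, he0]
    have h1 : (Part.bind (Part.ofOption (decode (α := Str) (encode σ)))
        fun a => Part.map encode (Nat.rfindOpt (hB c b a))).Dom ↔ (Nat.rfindOpt (hB c b σ)).Dom := by
      simp only [encodek, Part.coe_some, Part.bind_some, Part.map_Dom]
    refine h1.trans ?_
    rw [Nat.rfindOpt_dom]
    constructor
    · rintro ⟨m, a, ha⟩
      obtain ⟨v, hv, hv2⟩ := Option.bind_eq_some_iff.mp (show (E c σ (px m) (pt m)).bind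
        (fun v => tst b m v) = some a from ha)
      unfold tst at hv2
      refine ⟨px m, py m, dl v, ?_, ?_, ?_⟩
      · rw [enc_dl, key]
        exact ⟨_, hv⟩
      · intro hy
        rw [(mb_iff _ _).mpr hy, cond_true] at hv2
        exact absurd hv2 (by simp)
      · rw [← hb_iff]
        cases h2 : mb (dl v) (py m) with
        | true => rw [h2, cond_true] at hv2; exact absurd hv2 (by simp)
        | false =>
          rw [h2, cond_false] at hv2
          cases h3 : b (px m, py m) with
          | true => rfl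
          | false => rw [h3, cond_false] at hv2; exact absurd hv2 (by simp)
    · rintro ⟨x, y, l, h2, h3, h4⟩
      obtain ⟨t, ht⟩ := (key σ x _).mp h2
      have ex : px (Nat.pair x (Nat.pair y t)) = x := by unfold px; rw [Nat.unpair_pair]
      have ey : py (Nat.pair x (Nat.pair y t)) = y := by
        unfold py; rw [Nat.unpair_pair, Nat.unpair_pair]
      have et : pt (Nat.pair x (Nat.pair y t)) = t := by
        unfold pt; rw [Nat.unpair_pair, Nat.unpair_pair]
      refine ⟨Nat.pair x (Nat.pair y t), 0, ?_⟩
      show hB c b σ (Nat.pair x (Nat.pair y t)) = some 0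
      have h5 : mb l y = false := by
        cases h6 : mb l y with
        | true => exact absurd ((mb_iff _ _).mp h6) h3
        | false => rfl
      unfold hB tst
      rw [ex, ey, et, ht, Option.bind_some, dl_enc, h5, cond_false, (hb_iff x y).mpr h4,
        cond_true]
  -- no initial segment is bad
  have hno : ∀ k, ¬ We (encode e0) (pfx A k) := by
    intro k hk
    obtain ⟨x, y, l, h2, h3, h4⟩ := (hWe _).mp hk
    have h5 := hpf k x _ h2
    obtain ⟨l0, h6, h7⟩ := hFE (N x)
    rw [h6] at h5
    have h8 : l = l0 := encode_injective h5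
    rw [h8] at h3
    exact h3 ((h7 y).mpr ((hN x y).mp h4))
  obtain ⟨k, hk⟩ | ⟨k, hk⟩ := hA (encode e0)
  · exact absurd hk (hno k)
  -- the computation
  have hLdom : ∀ x, (Nat.rfindOpt (hL c (pfx A k) x)).Dom := by
    intro x
    rw [Nat.rfindOpt_dom]
    obtain ⟨k', hk'⟩ := (hval x (encode (N x))).mp (Part.mem_some _)
    have h1 : encode (N x) ∈ Φ (pfx A (k + k'), x) :=
      hmono _ _ _ _ (pfx_mono A (Nat.le_add_left k' k)) hk'
    obtain ⟨τ, hτ⟩ := pfx_mono A (Nat.le_add_right k k')
    obtain ⟨t, ht⟩ := (key _ _ _).mp h1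
    refine ⟨Nat.pair (encode τ) (Nat.pair t 0), dl (encode (N x)), ?_⟩
    have ex : px (Nat.pair (encode τ) (Nat.pair t 0)) = encode τ := by
      unfold px; rw [Nat.unpair_pair]
    have ey : py (Nat.pair (encode τ) (Nat.pair t 0)) = t := by
      unfold py; rw [Nat.unpair_pair, Nat.unpair_pair]
    show hL c (pfx A k) x (Nat.pair (encode τ) (Nat.pair t 0)) = some _
    unfold hL
    rw [ex, ey, ds_enc, hτ, ht, Option.map_some]
  set L0 : ℕ → List ℕ := fun x => (Nat.rfindOpt (hL c (pfx A k) x)).get (hLdom x) with hL0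
  have hL0c : Computable L0 :=
    Partrec.of_eq_tot (Partrec.rfindOpt (hL_comp c (pfx A k))) fun x => Part.get_mem (hLdom x)
  have hL0s : ∀ x y, G.Adj x y → y ∈ L0 x := by
    intro x y hxy
    obtain ⟨m, hm⟩ := Nat.rfindOpt_spec (Part.get_mem (hLdom x))
    have hm' : (E c (pfx A k ++ ds (px m)) x (py m)).map dl = some (L0 x) := hm
    obtain ⟨v, hv, hv2⟩ := Option.map_eq_some_iff.mp hm'
    by_contra hy
    refine hk (pfx A k ++ ds (px m)) (List.prefix_append _ _) ((hWe _).mpr
      ⟨x, y, L0 x, ?_, hy, hxy⟩)
    rw [← hv2, enc_dl, key]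
    exact ⟨_, hv⟩
  refine ⟨fun x => flt b x (L0 x) (L0 x).length, flt_comp hbc hL0c, fun x y => ?_⟩
  show y ∈ flt b x (L0 x) (L0 x).length ↔ G.Adj x y
  rw [mem_flt', hb_iff]
  exact ⟨fun h => h.2, fun h => ⟨hL0s x y h, h⟩⟩

end Pool.Agent.H662.GA
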