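import Pool.Agent.H662.GA.Stm

/-!
# Task NC: a 1-generic set is not computable (helper340, subtask of helper662)
-/

set_option autoImplicit false
open Classical

namespace Pool.Agent.H662.GA

namespace XNC

theorem pfx_succ (A : Set ℕ) (k : ℕ) : pfx A (k + 1) = pfx A k ++ [decide (k ∈ A)] := by
  unfold pfx
  rw [List.range_succ, List.map_append]
  rfl

theorem pfx_length (A : Set ℕ) (k : ℕ) : (pfx A k).length = k := by
  unfold pfx
  rw [List.length_map, List.length_range]

theorem comp_pfx {A : Set ℕ} (h : Computable (fun n : ℕ => decide (n ∈ A))) :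
    Computable (pfx A) := by
  have h1 : Computable (fun k : ℕ => Nat.rec (motive := fun _ => List Bool) []
      (fun y IH => IH ++ [decide (y ∈ A)]) k) := by
    refine Computable.nat_rec (f := fun k : ℕ => k) (g := fun _ : ℕ => ([] : List Bool))
      (h := fun (_ : ℕ) (p : ℕ × List Bool) => p.2 ++ [decide (p.1 ∈ A)])
      Computable.id (Computable.const _) ?_
    have h2 : Computable (fun p : ℕ × ℕ × List Bool => p.2.2) :=
      Computable.snd.comp Computable.snd
    have h3 : Computable (fun p : ℕ × ℕ × List Bool => decide (p.2.1 ∈ A)) :=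
      h.comp (Computable.fst.comp Computable.snd)
    exact Computable.list_concat.comp h2 h3
  refine h1.of_eq fun k => ?_
  induction k with
  | zero => rfl
  | succ k ih =>
    rw [pfx_succ, ← ih]

theorem comp_ne {A : Set ℕ} (h : Computable (fun n : ℕ => decide (n ∈ A))) :
    Computable (fun σ : Str => decide (σ = pfx A σ.length)) := by
  have h1 : Computable (fun σ : Str => pfx A σ.length) :=
    (comp_pfx h).comp Computable.list_length
  have h2 : Computable₂ (fun a b : Str => decide (a = b)) := Primrec.eq.decide.to_comp
  exact h2.comp Computable.id h1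

end XNC

open XNC

theorem t_NC : S_NC := by
  intro A hG hA
  have h : Computable (fun n : ℕ => decide (n ∈ A)) := by
    obtain ⟨_, h1⟩ := hA
    refine h1.of_eq fun n => ?_
    exact decide_eq_decide.2 Iff.rfl
  have hD := comp_ne h
  obtain ⟨f, hf⟩ : ∃ f : ℕ → Option ℕ, f = fun n => (Encodable.decode n : Option Str).bind
    (fun σ => bif decide (σ = pfx A σ.length) then none else some 0) := ⟨_, rfl⟩
  have hfc : Computable f := by
    rw [hf]
    refine Computable.option_bind Computable.decode ?_
    refine Computable.cond ?_ (Computable.const _) (Computable.const _)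
    exact hD.comp Computable.snd
  have hfp : Nat.Partrec (fun n => (f n : Part ℕ)) := Partrec.nat_iff.1 hfc.ofOption
  obtain ⟨c, hc⟩ := Nat.Partrec.Code.exists_code.1 hfp
  have hW : ∀ σ : Str, We (Encodable.encode c) σ ↔ σ ≠ pfx A σ.length := by
    intro σ
    unfold We
    rw [Denumerable.ofNat_encode, hc, hf]
    simp only [Encodable.encodek, Option.bind_some]
    by_cases h1 : σ = pfx A σ.length
    · simp [← h1]
    · simp [h1]
  rcases hG (Encodable.encode c) with ⟨k, hk⟩ | ⟨k, hk⟩
  · rw [hW, pfx_length] at hk
    exact hk rfl
  · refine hk (pfx A k ++ [! decide (k ∈ A)]) (List.prefix_append _ _) ?_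
    rw [hW, List.length_append, pfx_length, List.length_singleton, pfx_succ]
    intro h1
    have h2 := List.append_cancel_left h1
    by_cases h3 : k ∈ A <;> simp [h3] at h2

end Pool.Agent.H662.GA
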