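import Pool.Agent.H662.GA.Stm

/-!
# The frozen statement from the leaves
-/

set_option autoImplicit false

namespace Pool.Agent.H662.GA

theorem t_RS (hEX : S_EX) (hNC : S_NC) (hNB : S_NB) (hCL : S_CL) : S_RS := by
  intro h
  obtain ⟨A, hgen, hred⟩ := hEX
  obtain ⟨G, hG, ⟨N, hN, hNr⟩, -, hchi, hk⟩ := h A (hNC A hgen) hred
  obtain ⟨L, hL, hLG⟩ := hNB A hgen G hG ⟨N, hN, hNr⟩
  have hcol : G.Colorable 2 := by
    apply SimpleGraph.chromaticNumber_le_iff_colorable.1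
    rw [hchi]
    exact le_refl _
  obtain ⟨c, hc, hc4, hadj⟩ := hCL G hG L hL hLG hcol
  obtain ⟨x, y, hxy, he⟩ := hk 4 c hc hc4
  exact hadj x y hxy he

end Pool.Agent.H662.GA
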