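import Pool.Agent.H662.GA.Stm

/-!
Statement ST of project GA of helper662: one step of the construction of a 1-generic set.
-/

set_option autoImplicit false

namespace Pool.Agent.H662.GA.XST

open Encodable Nat.Partrec
open Pool.Agent.H662.GA

/-- one stage of the search -/
def hs (p : ℕ × Str) (m : ℕ) : Option Str :=
  (decode (α := Str × ℕ) m).bind fun r =>
    (Code.evaln r.2 (Denumerable.ofNat Code p.1) (encode (p.2 ++ r.1))).map fun _ => p.2 ++ r.1

theorem hs_prim : Primrec₂ hs := by
  unfold hs
  refine Primrec.option_bind (Primrec.decode.comp Primrec.snd) ?_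
  -- `((p, m), r)`
  have happ : Primrec fun x : ((ℕ × Str) × ℕ) × (Str × ℕ) => x.1.1.2 ++ x.2.1 :=
    Primrec.list_append.comp
      (Primrec.snd.comp (Primrec.fst.comp Primrec.fst)) (Primrec.fst.comp Primrec.snd)
  have hev : Primrec fun x : ((ℕ × Str) × ℕ) × (Str × ℕ) =>
      Code.evaln x.2.2 (Denumerable.ofNat Code x.1.1.1) (encode (x.1.1.2 ++ x.2.1)) :=
    Code.primrec_evaln.comp (Primrec.pair (Primrec.pair (Primrec.snd.comp Primrec.snd)
      ((Primrec.ofNat Code).comp (Primrec.fst.comp (Primrec.fst.comp Primrec.fst))))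
      (Primrec.encode.comp happ))
  exact Primrec.option_map hev (happ.comp Primrec.fst)

/-- the search -/
def gs (p : ℕ × Str) : Part Str := Nat.rfindOpt (hs p)

theorem gs_part : Partrec gs := Partrec.rfindOpt hs_prim.to_comp

theorem gs_sound {p : ℕ × Str} {τ : Str} (h : τ ∈ gs p) : p.2 <+: τ ∧ We p.1 τ := by
  obtain ⟨m, hm⟩ := Nat.rfindOpt_spec h
  unfold hs at hm
  rw [Option.mem_def, Option.bind_eq_some_iff] at hm
  obtain ⟨r, _, hr⟩ := hm
  rw [Option.map_eq_some_iff] at hr
  obtain ⟨v, hv, hτ⟩ := hr
  rw [← hτ]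
  refine ⟨List.prefix_append _ _, ?_⟩
  exact Part.dom_iff_mem.2 ⟨v, Code.evaln_sound hv⟩

theorem gs_dom {p : ℕ × Str} {τ : Str} (h1 : p.2 <+: τ) (h2 : We p.1 τ) : (gs p).Dom := by
  obtain ⟨ρ, rfl⟩ := h1
  obtain ⟨v, hv⟩ := Part.dom_iff_mem.1 h2
  obtain ⟨t, ht⟩ := Code.evaln_complete.1 hv
  refine Nat.rfindOpt_dom.2 ⟨encode (ρ, t), p.2 ++ ρ, ?_⟩
  unfold hs
  rw [Option.mem_def, encodek, Option.bind_some]
  rw [Option.mem_def] at ht
  simp [ht]

open Classical in
/-- one step of the construction -/
noncomputable def Fs (p : ℕ × Str) : Str :=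
  if h : (gs p).Dom then (gs p).get h ++ [false] else p.2 ++ [false]

/-- decoding of the arguments -/
def dc (n : ℕ) : ℕ × Str := (decode (α := ℕ × Str) n).getD (0, [])

theorem dc_comp : Computable dc :=
  (Primrec.option_getD.comp Primrec.decode (Primrec.const (0, []))).to_comp

/-- the combination with the answer of the oracle -/
def Cs (m : ℕ) : Part ℕ :=
  cond (decide (m.unpair.2 = 0)) (Part.some (encode ((dc m.unpair.1).2 ++ [false])))
    ((gs (dc m.unpair.1)).map fun τ => encode (τ ++ [false]))

theorem Cs_part : Partrec Cs := by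
  have h1 : Computable fun m : ℕ => dc m.unpair.1 :=
    dc_comp.comp (Primrec.fst.comp Primrec.unpair).to_comp
  have h2 : Computable fun τ : Str => encode (τ ++ [false]) :=
    (Primrec.encode.comp (Primrec.list_append.comp Primrec.id (Primrec.const [false]))).to_comp
  refine Partrec.cond ?_ ?_ ?_
  · exact (PrimrecPred.decide (Primrec.eq.comp (Primrec.snd.comp Primrec.unpair)
      (Primrec.const 0))).to_comp
  · exact (h2.comp (Computable.snd.comp h1)).partrec
  · exact (gs_part.comp h1).map (h2.comp Computable.snd)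

/-- ignoring the second component of the input -/
def Ps (m : ℕ) : Part ℕ := (gs (dc m.unpair.1)).map fun τ => encode τ

theorem Ps_part : Partrec Ps := by
  have h1 : Computable fun m : ℕ => dc m.unpair.1 :=
    dc_comp.comp (Primrec.fst.comp Primrec.unpair).to_comp
  exact (gs_part.comp h1).map (Computable.encode.comp Computable.snd)

end Pool.Agent.H662.GA.XST

namespace Pool.Agent.H662.GA

open Encodable Nat.Partrec XST

theorem t_ST : S_ST := by
  classical
  obtain ⟨cP, hcP⟩ := Code.exists_code.1 (Partrec.nat_iff.1 Ps_part)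
  refine ⟨Fs, ?_, ?_, ?_⟩
  · refine RecursiveIn.iff_nat.2 ?_
    have hq : Nat.Partrec (fun n : ℕ => Part.some (encode (Code.curry cP n))) := by
      have h1 : Computable fun n : ℕ => encode (Code.curry cP n) :=
        (Primrec.encode.comp (Code.primrec₂_curry.comp (Primrec.const cP) Primrec.id)).to_comp
      exact Partrec.nat_iff.1 h1.partrec
    have h1 : Nat.RecursiveIn {hlt} (fun n : ℕ => Part.some (encode (Code.curry cP n)) >>= hlt) :=
      .comp (.oracle hlt rfl) hq.recursiveIn
    have hid : Nat.RecursiveIn {hlt} (fun n : ℕ => Part.some n) :=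
      (Partrec.nat_iff.1 (Partrec.some (α := ℕ))).recursiveIn
    have h2 := Nat.RecursiveIn.comp (Partrec.nat_iff.1 Cs_part).recursiveIn (hid.pair h1)
    refine h2.of_eq fun n => ?_
    have hd : ∀ x : ℕ, (Code.eval (Code.curry cP n) x).Dom ↔ (gs (dc n)).Dom := by
      intro x
      rw [Code.eval_curry, hcP]
      simp [Ps]
    have hora : (Part.some (encode (Code.curry cP n)) >>= hlt) =
        Part.some (if (gs (dc n)).Dom then 1 else 0) := by
      refine (Part.bind_some (encode (Code.curry cP n)) hlt).trans ?_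
      unfold hlt
      rw [Denumerable.ofNat_encode]
      by_cases h : (gs (dc n)).Dom
      · rw [if_pos ((hd _).2 h), if_pos h]
      · rw [if_neg (fun h' => h ((hd _).1 h')), if_neg h]
    rw [hora]
    have hpr : ∀ b : ℕ, (Nat.pair <$> Part.some n <*> Part.some b) =
        Part.some (Nat.pair n b) := by
      intro b
      simp [Seq.seq]
    rw [hpr]
    refine (Part.bind_some _ Cs).trans ?_
    unfold Cs Fs
    rw [Nat.unpair_pair]
    by_cases h : (gs (dc n)).Dom
    · have h' : (gs ((decode (α := ℕ × Str) n).getD (0, []))).Dom := h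
      rw [if_pos h, dif_pos h']
      simp only [one_ne_zero, decide_false, cond_false]
      exact Part.get_eq_iff_eq_some.1 rfl
    · have h' : ¬ (gs ((decode (α := ℕ × Str) n).getD (0, []))).Dom := h
      rw [if_neg h, dif_neg h']
      simp only [decide_true, cond_true]
      rfl
  · intro e σ
    unfold Fs
    split_ifs with h
    · have h1 := (gs_sound (Part.get_mem h)).1
      refine ⟨h1.trans (List.prefix_append _ _), ?_⟩
      have h2 := h1.length_le
      rw [List.length_append]
      simp only [List.length_singleton]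
      exact Nat.lt_succ_of_le h2
    · exact ⟨List.prefix_append _ _, by simp⟩
  · rintro e σ ⟨τ, h1, h2⟩
    have h := gs_dom (p := (e, σ)) h1 h2
    have h3 := gs_sound (Part.get_mem h)
    refine ⟨(gs (e, σ)).get h, h3.1, ?_, h3.2⟩
    unfold Fs
    rw [dif_pos h]
    exact List.prefix_append _ _

end Pool.Agent.H662.GA
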