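import Pool.Agent.H662.GA.Stm

/-!
# Project GA (helper662): the use principle (helper187)
-/

set_option autoImplicit false

namespace Pool.Agent.H662.GA

namespace XUSE

theorem pfx_prefix (A : Set ℕ) {k l : ℕ} (h : k ≤ l) : pfx A k <+: pfx A l := by
  unfold pfx
  obtain ⟨m, rfl⟩ := Nat.exists_eq_add_of_le h
  rw [List.range_add, List.map_append]
  exact List.prefix_append _ _

/-- A functional with the use property. -/
structure Use (A : Set ℕ) (p : ℕ →. ℕ) (Φ : Str → ℕ →. ℕ) : Prop where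
  part : Partrec₂ Φ
  mono : ∀ σ τ, σ <+: τ → ∀ n y, y ∈ Φ σ n → y ∈ Φ τ n
  use : ∀ n y, y ∈ p n ↔ ∃ k, y ∈ Φ (pfx A k) n

theorem Use.le {A : Set ℕ} {p : ℕ →. ℕ} {Φ : Str → ℕ →. ℕ} (h : Use A p Φ) {k l : ℕ} (hkl : k ≤ l)
    {n y : ℕ} (hy : y ∈ Φ (pfx A k) n) : y ∈ Φ (pfx A l) n :=
  h.mono _ _ (pfx_prefix A hkl) n y hy

theorem Use.of {A : Set ℕ} {p : ℕ →. ℕ} {Φ : Str → ℕ →. ℕ} (h : Use A p Φ) {k : ℕ}
    {n y : ℕ} (hy : y ∈ Φ (pfx A k) n) : y ∈ p n := (h.use n y).2 ⟨k, hy⟩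

theorem use_const {A : Set ℕ} {p : ℕ →. ℕ} (hp : Nat.Partrec p) : Use A p (fun _ => p) where
  part := (Partrec.nat_iff.2 hp).comp Computable.snd
  mono := fun _ _ _ _ _ h => h
  use := fun _ _ => ⟨fun h => ⟨0, h⟩, fun ⟨_, h⟩ => h⟩

/-- the oracle -/
def Orc (σ : Str) : ℕ →. ℕ := fun n => ((σ[n]?.map fun b => bif b then 1 else 0 : Option ℕ) : Part ℕ)

theorem mem_orc {σ : Str} {n y : ℕ} : y ∈ Orc σ n ↔ ∃ b, σ[n]? = some b ∧ (bif b then 1 else 0) = y := by
  unfold Orc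
  rw [Part.mem_coe, Option.mem_def, Option.map_eq_some_iff]

open Classical in
theorem use_orc (A : Set ℕ) : Use A (chi A) Orc where
  part := by
    have h1 : Computable fun q : Str × ℕ => (q.1[q.2]? : Option Bool) :=
      Computable.list_getElem?.comp Computable.fst Computable.snd
    have h2 : Computable₂ fun (_ : Str × ℕ) (b : Bool) => (bif b then 1 else 0 : ℕ) :=
      (Computable.cond Computable.snd (Computable.const 1) (Computable.const 0)).to₂
    exact Computable.ofOption (Computable.option_map h1 h2)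
  mono := by
    intro σ τ h n y hy
    rw [mem_orc] at hy ⊢
    obtain ⟨b, hb, hy⟩ := hy
    refine ⟨b, ?_, hy⟩
    obtain ⟨t, rfl⟩ := h
    have h1 : n < σ.length := by
      by_contra h2
      rw [List.getElem?_eq_none (by omega)] at hb
      exact absurd hb (by simp)
    rw [List.getElem?_append_left h1]
    exact hb
  use := by
    intro n y
    have key : ∀ k b, (pfx A k)[n]? = some b → (bif b then 1 else 0 : ℕ) = (if n ∈ A then (1 : ℕ) else 0) := by
      intro k b hb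
      unfold pfx at hb
      rw [List.getElem?_map, Option.map_eq_some_iff] at hb
      obtain ⟨a, ha, hab⟩ := hb
      have h1 : n < k := by
        by_contra h2
        rw [List.getElem?_eq_none (by rw [List.length_range]; omega)] at ha
        exact absurd ha (by simp)
      rw [List.getElem?_range h1] at ha
      obtain rfl := Option.some.inj ha
      subst hab
      by_cases hn : n ∈ A <;> simp [hn]
    unfold chi
    rw [Part.mem_some_iff]
    constructor
    · intro hy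
      refine ⟨n + 1, mem_orc.2 ?_⟩
      have h1 : ∃ b, (pfx A (n + 1))[n]? = some b := by
        unfold pfx
        rw [List.getElem?_map, List.getElem?_range (Nat.lt_succ_self n)]
        exact ⟨_, rfl⟩
      obtain ⟨b, hb⟩ := h1
      exact ⟨b, hb, (key _ _ hb).trans hy.symm⟩
    · rintro ⟨k, hk⟩
      obtain ⟨b, hb, hy⟩ := mem_orc.1 hk
      exact hy.symm.trans (key _ _ hb)

theorem pair_eq (x z : Part ℕ) : (Nat.pair <$> x <*> z) = x.bind fun a => z.map (Nat.pair a) := by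
  ext y
  simp [Seq.seq]

theorem use_pair {A : Set ℕ} {f h : ℕ →. ℕ} {Φ Ψ : Str → ℕ →. ℕ} (hf : Use A f Φ) (hh : Use A h Ψ) :
    Use A (fun n => (Nat.pair <$> f n <*> h n)) (fun σ n => (Φ σ n).bind fun a => (Ψ σ n).map (Nat.pair a)) where
  part := by
    refine Partrec.bind hf.part ?_
    refine Partrec.map (hh.part.comp (Computable.fst.comp Computable.fst) (Computable.snd.comp Computable.fst)) ?_
    exact (Primrec₂.natPair.to_comp.comp (Computable.snd.comp Computable.fst) Computable.snd)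
  mono := by
    intro σ τ hs n y hy
    rw [Part.mem_bind_iff] at hy ⊢
    obtain ⟨a, ha, hy⟩ := hy
    rw [Part.mem_map_iff] at hy
    obtain ⟨b, hb, hy⟩ := hy
    exact ⟨a, hf.mono σ τ hs n a ha, (Part.mem_map_iff _).2 ⟨b, hh.mono σ τ hs n b hb, hy⟩⟩
  use := by
    intro n y
    rw [pair_eq, Part.mem_bind_iff]
    constructor
    · rintro ⟨a, ha, hy⟩
      rw [Part.mem_map_iff] at hy
      obtain ⟨b, hb, hy⟩ := hy
      obtain ⟨k, hk⟩ := (hf.use n a).1 ha
      obtain ⟨l, hl⟩ := (hh.use n b).1 hb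
      exact ⟨max k l, Part.mem_bind (hf.le (le_max_left k l) hk)
        ((Part.mem_map_iff _).2 ⟨b, hh.le (le_max_right k l) hl, hy⟩)⟩
    · rintro ⟨k, hk⟩
      rw [Part.mem_bind_iff] at hk
      obtain ⟨a, ha, hy⟩ := hk
      rw [Part.mem_map_iff] at hy
      obtain ⟨b, hb, hy⟩ := hy
      exact ⟨a, hf.of ha, (Part.mem_map_iff _).2 ⟨b, hh.of hb, hy⟩⟩

theorem use_comp {A : Set ℕ} {f h : ℕ →. ℕ} {Φ Ψ : Str → ℕ →. ℕ} (hf : Use A f Φ) (hh : Use A h Ψ) :
    Use A (fun n => h n >>= f) (fun σ n => (Ψ σ n).bind (Φ σ)) where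
  part := by
    refine Partrec.bind hh.part ?_
    exact hf.part.comp (Computable.fst.comp Computable.fst) Computable.snd
  mono := by
    intro σ τ hs n y hy
    rw [Part.mem_bind_iff] at hy ⊢
    obtain ⟨a, ha, hy⟩ := hy
    exact ⟨a, hh.mono σ τ hs n a ha, hf.mono σ τ hs a y hy⟩
  use := by
    intro n y
    rw [Part.bind_eq_bind, Part.mem_bind_iff]
    constructor
    · rintro ⟨a, ha, hy⟩
      obtain ⟨k, hk⟩ := (hh.use n a).1 ha
      obtain ⟨l, hl⟩ := (hf.use a y).1 hy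
      exact ⟨max k l, Part.mem_bind (hh.le (le_max_left k l) hk) (hf.le (le_max_right k l) hl)⟩
    · rintro ⟨k, hk⟩
      rw [Part.mem_bind_iff] at hk
      obtain ⟨a, ha, hy⟩ := hk
      exact ⟨a, hh.of ha, hf.of hy⟩

/-- primitive recursion -/
def Pr (f h : ℕ →. ℕ) (a n : ℕ) : Part ℕ :=
  Nat.rec (f a) (fun y IH => IH.bind fun i => h (Nat.pair a (Nat.pair y i))) n

theorem Pr_succ (f h : ℕ →. ℕ) (a n : ℕ) :
    Pr f h a (n + 1) = (Pr f h a n).bind fun i => h (Nat.pair a (Nat.pair n i)) := rfl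

theorem use_prec {A : Set ℕ} {f h : ℕ →. ℕ} {Φ Ψ : Str → ℕ →. ℕ} (hf : Use A f Φ) (hh : Use A h Ψ) :
    Use A (fun p => Pr f h (Nat.unpair p).1 (Nat.unpair p).2)
      (fun σ p => Pr (Φ σ) (Ψ σ) (Nat.unpair p).1 (Nat.unpair p).2) where
  part := by
    have h0 : Computable fun q : Str × ℕ => Nat.unpair q.2 := Computable.unpair.comp Computable.snd
    have h1 : Computable fun q : Str × ℕ => (Nat.unpair q.2).2 := Computable.snd.comp h0
    have h2 : Computable fun q : Str × ℕ => (Nat.unpair q.2).1 := Computable.fst.comp h0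
    have h3 : Partrec fun q : Str × ℕ => Φ q.1 (Nat.unpair q.2).1 := hf.part.comp Computable.fst h2
    have h4 : Partrec₂ fun (q : Str × ℕ) (r : ℕ × ℕ) => Ψ q.1 (Nat.pair (Nat.unpair q.2).1 (Nat.pair r.1 r.2)) := by
      refine hh.part.comp (Computable.fst.comp Computable.fst) ?_
      refine Primrec₂.natPair.to_comp.comp (h2.comp Computable.fst) ?_
      exact Primrec₂.natPair.to_comp.comp (Computable.fst.comp Computable.snd)
        (Computable.snd.comp Computable.snd)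
    exact Partrec.nat_rec h1 h3 h4
  mono := by
    intro σ τ hs p
    generalize (Nat.unpair p).2 = n
    generalize (Nat.unpair p).1 = a
    induction n with
    | zero => exact fun y hy => hf.mono σ τ hs a y hy
    | succ n ih =>
      intro y hy
      rw [Pr_succ, Part.mem_bind_iff] at hy ⊢
      obtain ⟨i, hi, hy⟩ := hy
      exact ⟨i, ih i hi, hh.mono σ τ hs _ y hy⟩
  use := by
    intro p
    have hmono : ∀ σ τ, σ <+: τ → ∀ (a n y : ℕ), y ∈ Pr (Φ σ) (Ψ σ) a n → y ∈ Pr (Φ τ) (Ψ τ) a n := by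
      intro σ τ hs a n
      induction n with
      | zero => exact fun y hy => hf.mono σ τ hs a y hy
      | succ n ih =>
        intro y hy
        rw [Pr_succ, Part.mem_bind_iff] at hy ⊢
        obtain ⟨i, hi, hy⟩ := hy
        exact ⟨i, ih i hi, hh.mono σ τ hs _ y hy⟩
    generalize (Nat.unpair p).2 = n
    generalize (Nat.unpair p).1 = a
    induction n with
    | zero => exact fun y => hf.use a y
    | succ n ih =>
      intro y
      rw [Pr_succ, Part.mem_bind_iff]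
      constructor
      · rintro ⟨i, hi, hy⟩
        obtain ⟨k, hk⟩ := (ih i).1 hi
        obtain ⟨l, hl⟩ := (hh.use _ y).1 hy
        refine ⟨max k l, ?_⟩
        rw [Pr_succ, Part.mem_bind_iff]
        exact ⟨i, hmono _ _ (pfx_prefix A (le_max_left k l)) a n i hk, hh.le (le_max_right k l) hl⟩
      · rintro ⟨k, hk⟩
        rw [Pr_succ, Part.mem_bind_iff] at hk
        obtain ⟨i, hi, hy⟩ := hk
        exact ⟨i, (ih i).2 ⟨k, hi⟩, hh.of hy⟩

/-- minimization -/
def Rf (f : ℕ →. ℕ) (a : ℕ) : Part ℕ := Nat.rfind fun n => (f (Nat.pair a n)).map fun m => decide (m = 0)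

theorem mem_Rf {f : ℕ →. ℕ} {a y : ℕ} :
    y ∈ Rf f a ↔ 0 ∈ f (Nat.pair a y) ∧ ∀ m, m < y → ∃ z, z ≠ 0 ∧ z ∈ f (Nat.pair a m) := by
  unfold Rf
  rw [Nat.mem_rfind]
  constructor
  · rintro ⟨h1, h2⟩
    rw [Part.mem_map_iff] at h1
    obtain ⟨z, hz, h1⟩ := h1
    obtain rfl := of_decide_eq_true h1
    refine ⟨hz, fun m hm => ?_⟩
    have h3 := h2 hm
    rw [Part.mem_map_iff] at h3
    obtain ⟨w, hw, h3⟩ := h3
    exact ⟨w, of_decide_eq_false h3, hw⟩
  · rintro ⟨h1, h2⟩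
    refine ⟨(Part.mem_map_iff _).2 ⟨0, h1, decide_eq_true rfl⟩, fun {m} hm => ?_⟩
    obtain ⟨z, hz, h3⟩ := h2 m hm
    exact (Part.mem_map_iff _).2 ⟨z, h3, decide_eq_false hz⟩

theorem use_rfind {A : Set ℕ} {f : ℕ →. ℕ} {Φ : Str → ℕ →. ℕ} (hf : Use A f Φ) :
    Use A (fun a => Rf f a) (fun σ a => Rf (Φ σ) a) where
  part := by
    have h1 : Partrec₂ fun (q : Str × ℕ) (n : ℕ) => Φ q.1 (Nat.pair q.2 n) := by
      refine hf.part.comp (Computable.fst.comp Computable.fst) ?_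
      exact Primrec₂.natPair.to_comp.comp (Computable.snd.comp Computable.fst) Computable.snd
    have h2 : Computable₂ fun (_ : (Str × ℕ) × ℕ) (m : ℕ) => decide (m = 0) := by
      have h3 : Computable fun m : ℕ => decide (m = 0) :=
        (Primrec.eq.comp Primrec.id (Primrec.const 0)).decide.to_comp
      exact h3.comp Computable.snd
    exact Partrec.rfind (Partrec.map h1 h2)
  mono := by
    intro σ τ hs a y hy
    rw [mem_Rf] at hy ⊢
    refine ⟨hf.mono σ τ hs _ _ hy.1, fun m hm => ?_⟩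
    obtain ⟨z, hz, h⟩ := hy.2 m hm
    exact ⟨z, hz, hf.mono σ τ hs _ _ h⟩
  use := by
    intro a y
    rw [mem_Rf]
    constructor
    · rintro ⟨h1, h2⟩
      obtain ⟨k, hk⟩ := (hf.use _ _).1 h1
      have h3 : ∀ m, m ≤ y → ∃ l, ∀ i, i < m → ∃ z, z ≠ 0 ∧ z ∈ Φ (pfx A l) (Nat.pair a i) := by
        intro m
        induction m with
        | zero => exact fun _ => ⟨0, fun i hi => absurd hi (Nat.not_lt_zero i)⟩
        | succ m ih =>
          intro hm
          obtain ⟨l, hl⟩ := ih (by omega)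
          obtain ⟨z, hz, h4⟩ := h2 m (by omega)
          obtain ⟨l', hl'⟩ := (hf.use _ _).1 h4
          refine ⟨max l l', fun i hi => ?_⟩
          rcases Nat.lt_succ_iff_lt_or_eq.1 hi with h | h
          · obtain ⟨w, hw, h5⟩ := hl i h
            exact ⟨w, hw, hf.le (le_max_left l l') h5⟩
          · subst h
            exact ⟨z, hz, hf.le (le_max_right l l') hl'⟩
      obtain ⟨l, hl⟩ := h3 y le_rfl
      refine ⟨max k l, mem_Rf.2 ⟨hf.le (le_max_left k l) hk, fun m hm => ?_⟩⟩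
      obtain ⟨z, hz, h⟩ := hl m hm
      exact ⟨z, hz, hf.le (le_max_right k l) h⟩
    · rintro ⟨k, hk⟩
      rw [mem_Rf] at hk
      refine ⟨hf.of hk.1, fun m hm => ?_⟩
      obtain ⟨z, hz, h⟩ := hk.2 m hm
      exact ⟨z, hz, hf.of h⟩

theorem main (A : Set ℕ) (p : ℕ →. ℕ) (hp : Nat.RecursiveIn {chi A} p) : ∃ Φ, Use A p Φ := by
  induction hp with
  | zero => exact ⟨_, use_const Nat.Partrec.zero⟩
  | succ => exact ⟨_, use_const Nat.Partrec.succ⟩
  | left => exact ⟨_, use_const Nat.Partrec.left⟩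
  | right => exact ⟨_, use_const Nat.Partrec.right⟩
  | oracle g hg =>
    obtain rfl := Set.mem_singleton_iff.1 hg
    exact ⟨_, use_orc A⟩
  | pair _ _ ih₁ ih₂ =>
    obtain ⟨Φ, h1⟩ := ih₁
    obtain ⟨Ψ, h2⟩ := ih₂
    exact ⟨_, use_pair h1 h2⟩
  | comp _ _ ih₁ ih₂ =>
    obtain ⟨Φ, h1⟩ := ih₁
    obtain ⟨Ψ, h2⟩ := ih₂
    exact ⟨_, use_comp h1 h2⟩
  | prec _ _ ih₁ ih₂ =>
    obtain ⟨Φ, h1⟩ := ih₁
    obtain ⟨Ψ, h2⟩ := ih₂
    exact ⟨_, use_prec h1 h2⟩
  | rfind _ ih =>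
    obtain ⟨Φ, h1⟩ := ih
    exact ⟨_, use_rfind h1⟩

end XUSE

open XUSE in
theorem t_USE : S_USE := by
  intro A p hp
  obtain ⟨Φ, h⟩ := main A p (RecursiveIn.iff_nat.1 hp)
  exact ⟨fun q => Φ q.1 q.2, h.part, fun σ τ n y hs hy => h.mono σ τ hs n y hy, fun n y => h.use n y⟩

end Pool.Agent.H662.GA
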