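import Pool.Agent.H662.GA.CL
import Pool.Agent.H662.GA.EX
import Pool.Agent.H662.GA.FE
import Pool.Agent.H662.GA.NB
import Pool.Agent.H662.GA.NC
import Pool.Agent.H662.GA.RS
import Pool.Agent.H662.GA.ST
import Pool.Agent.H662.GA.USE

/-! # Assembly of the proof of S14568 -/

set_option autoImplicit false

namespace Pool.Agent.H662.GA

theorem main : S_RS := t_RS (t_EX t_ST) t_NC (t_NB t_USE t_FE) t_CL

end Pool.Agent.H662.GA
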