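import Pool.Agent.H662.GA.Stm

set_option autoImplicit false
open Classical

namespace Pool.Agent.H662.GA.XCL

theorem find_comp {p : ℕ → ℕ → Bool} (hp : Computable₂ p) (h : ∀ a, ∃ n, p a n = true) :
    ∃ f : ℕ → ℕ, Computable f ∧ (∀ a, p a (f a) = true) ∧ ∀ a n, p a n = true → f a ≤ n := by
  refine ⟨fun a => Nat.find (h a), ?_, fun a => Nat.find_spec (h a),
    fun a n hn => Nat.find_min' (h a) hn⟩
  have h1 : Partrec fun a => Nat.rfind fun n => (Part.some (p a n)) := Partrec.rfind (hp.partrec₂)
  refine h1.of_eq fun a => ?_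
  apply Part.eq_some_iff.2
  refine Nat.mem_rfind.2 ⟨?_, ?_⟩
  · show true ∈ Part.some (p a (Nat.find (h a)))
    rw [Nat.find_spec (h a)]
    exact Part.mem_some _
  · intro m hm
    have := Nat.find_min (h a) hm
    rw [Bool.not_eq_true] at this
    show false ∈ Part.some (p a m)
    rw [this]
    exact Part.mem_some _

/-- bounded universal quantifier -/
def all (r : ℕ → ℕ → Bool) (K m : ℕ) : Bool :=
  Nat.rec (motive := fun _ => Bool) true (fun k acc => acc && r m k) K

theorem all_iff (r : ℕ → ℕ → Bool) (K m : ℕ) : all r K m = true ↔ ∀ k < K, r m k = true := by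
  induction K with
  | zero => simp [all]
  | succ K ih =>
    have : all r (K+1) m = (all r K m && r m K) := rfl
    rw [this, Bool.and_eq_true, ih]
    constructor
    · rintro ⟨h1, h2⟩ k hk
      rcases Nat.lt_succ_iff_lt_or_eq.1 hk with h | h
      · exact h1 k h
      · rw [h]; exact h2
    · intro h
      exact ⟨fun k hk => h k (by omega), h K (by omega)⟩

theorem all_comp {r : ℕ → ℕ → Bool} (hr : Computable₂ r) : Computable₂ (all r) := by
  unfold Computable₂
  have h := Computable.nat_rec (f := fun p : ℕ × ℕ => p.1) (g := fun _ => true)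
    (h := fun (p : ℕ × ℕ) (q : ℕ × Bool) => q.2 && r p.2 q.1)
    Computable.fst (Computable.const true) (by
      have h1 : Computable (fun x : (ℕ × ℕ) × (ℕ × Bool) => x.2.2) :=
        Computable.snd.comp Computable.snd
      have h2 : Computable (fun x : (ℕ × ℕ) × (ℕ × Bool) => r x.1.2 x.2.1) :=
        hr.comp (Computable.snd.comp Computable.fst) (Computable.fst.comp Computable.snd)
      exact (Primrec.and.to_comp).comp h1 h2)
  exact h

/-- the colour given to `v` by the list with code `m` -/
def col (m v : ℕ) : ℕ := ((Denumerable.ofNat (List ℕ) m)[v]?.getD 0) % 2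

theorem col_comp : Computable₂ col := by
  have h1 : Computable₂ (fun (m v : ℕ) => (Denumerable.ofNat (List ℕ) m)[v]?) :=
    Computable.list_getElem?.comp ((Computable.ofNat (List ℕ)).comp Computable.fst) Computable.snd
  have h2 : Computable (fun p : ℕ × ℕ => ((Denumerable.ofNat (List ℕ) p.1)[p.2]?).getD 0) :=
    Computable.option_getD h1 (Computable.const 0)
  have h3 : Computable₂ (fun a b : ℕ => a % b) := Primrec.nat_mod.to_comp
  exact h3.comp h2 (Computable.const 2)

theorem col_ex (f : ℕ → ℕ) (K : ℕ) : ∃ m, ∀ v < K, col m v = f v % 2 := by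
  refine ⟨Encodable.encode ((List.range K).map f), fun v hv => ?_⟩
  unfold col
  rw [Denumerable.ofNat_encode, List.getElem?_map, List.getElem?_range hv]
  rfl

theorem le_encode (l : List ℕ) : ∀ y ∈ l, y ≤ Encodable.encode l := by
  induction l with
  | nil => intro y hy; simp at hy
  | cons a l ih =>
    intro y hy
    rw [Encodable.encode_list_cons]
    rcases List.mem_cons.1 hy with h | h
    · rw [h]
      have := Nat.left_le_pair (Encodable.encode a) (Encodable.encode l)
      simp only [Encodable.encode_nat] at this ⊢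
      omega
    · have h1 := ih y h
      have h2 := Nat.right_le_pair (Encodable.encode a) (Encodable.encode l)
      omega

/-- bound for the neighbours of the vertices up to `n` -/
def gb (M : ℕ → ℕ) (n : ℕ) : ℕ :=
  Nat.rec (motive := fun _ => ℕ) (M 0) (fun k acc => acc + M (k+1) + 1) n

theorem gb_comp {M : ℕ → ℕ} (hM : Computable M) : Computable (gb M) := by
  have h := Computable.nat_rec (f := fun n : ℕ => n) (g := fun _ => M 0)
    (h := fun (_ : ℕ) (q : ℕ × ℕ) => q.2 + M (q.1 + 1) + 1)
    Computable.id (Computable.const (M 0)) (by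
      have h1 : Computable (fun x : ℕ × (ℕ × ℕ) => x.2.2) := Computable.snd.comp Computable.snd
      have h2 : Computable (fun x : ℕ × (ℕ × ℕ) => M (x.2.1 + 1)) :=
        hM.comp (Computable.succ.comp (Computable.fst.comp Computable.snd))
      exact Computable.succ.comp ((Primrec.nat_add.to_comp).comp h1 h2))
  exact h

theorem gb_spec (M : ℕ → ℕ) (n : ℕ) : n ≤ gb M n ∧ ∀ x ≤ n, M x ≤ gb M n := by
  induction n with
  | zero =>
    refine ⟨Nat.zero_le _, fun x hx => ?_⟩
    have : x = 0 := by omega
    rw [this]; exact le_rfl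
  | succ n ih =>
    have h : gb M (n+1) = gb M n + M (n+1) + 1 := rfl
    rw [h]
    refine ⟨by omega, fun x hx => ?_⟩
    rcases Nat.lt_or_ge x (n+1) with h1 | h1
    · have := ih.2 x (by omega)
      omega
    · have : x = n + 1 := by omega
      rw [this]; omega

/-- the cut points -/
def bs (M : ℕ → ℕ) (s : ℕ) : ℕ := Nat.rec (motive := fun _ => ℕ) 0 (fun _ acc => gb M acc + 1) s

theorem bs_succ (M : ℕ → ℕ) (s : ℕ) : bs M (s+1) = gb M (bs M s) + 1 := rfl

theorem bs_comp {M : ℕ → ℕ} (hM : Computable M) : Computable (bs M) := by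
  have h := Computable.nat_rec (f := fun n : ℕ => n) (g := fun _ => 0)
    (h := fun (_ : ℕ) (q : ℕ × ℕ) => gb M q.2 + 1)
    Computable.id (Computable.const 0) (by
      have h1 : Computable (fun x : ℕ × (ℕ × ℕ) => x.2.2) := Computable.snd.comp Computable.snd
      exact Computable.succ.comp ((gb_comp hM).comp h1))
  exact h

theorem bs_ge (M : ℕ → ℕ) (s : ℕ) : s ≤ bs M s := by
  induction s with
  | zero => exact Nat.zero_le _
  | succ s ih =>
    rw [bs_succ]
    have := (gb_spec M (bs M s)).1
    omega

theorem bs_mono (M : ℕ → ℕ) : StrictMono (bs M) := by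
  apply strictMono_nat_of_lt_succ
  intro s
  rw [bs_succ]
  have := (gb_spec M (bs M s)).1
  omega

end Pool.Agent.H662.GA.XCL

namespace Pool.Agent.H662.GA

open XCL in
theorem t_CL : S_CL := by
  intro G hG L hL hLG hcol
  obtain ⟨hdec, hadj⟩ := hG
  -- a computable Boolean adjacency
  obtain ⟨ad, had, hadG⟩ : ∃ ad : ℕ × ℕ → Bool, Computable ad ∧
      ∀ p, ad p = true ↔ G.Adj p.1 p.2 := ⟨fun p => decide (G.Adj p.1 p.2), hadj, fun p => by
        rw [decide_eq_true_iff]⟩
  -- the bound
  set M : ℕ → ℕ := fun x => Encodable.encode (L x) with hMdef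
  have hM : Computable M := Computable.encode.comp hL
  have hML : ∀ x y, G.Adj x y → y ≤ M x := fun x y h => le_encode _ y ((hLG x y).2 h)
  -- the ring index
  obtain ⟨s, hs, hs1, hs2⟩ := find_comp (p := fun x s => decide (x ≤ bs M s)) (by
    have h1 : PrimrecRel (fun a b : ℕ => a ≤ b) := Primrec.nat_le
    have h2 : Computable₂ (fun a b : ℕ => decide (a ≤ b)) := by
      exact (PrimrecRel.decide h1).to_comp
    exact h2.comp Computable.fst ((bs_comp hM).comp Computable.snd))
    (fun x => ⟨x, by rw [decide_eq_true_iff]; exact bs_ge M x⟩)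
  simp only [decide_eq_true_iff] at hs1 hs2
  -- the check
  set r : ℕ → ℕ → Bool := fun m k =>
    !(ad (Nat.unpair k) && decide (col m (Nat.unpair k).1 = col m (Nat.unpair k).2)) with hr
  have hrc : Computable₂ r := by
    have hu : Computable (fun x : ℕ × ℕ => Nat.unpair x.2) :=
      (Primrec.unpair.to_comp).comp Computable.snd
    have h1 : Computable (fun x : ℕ × ℕ => ad (Nat.unpair x.2)) := had.comp hu
    have h2 : Computable (fun x : ℕ × ℕ => col x.1 (Nat.unpair x.2).1) :=
      col_comp.comp Computable.fst (Computable.fst.comp hu)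
    have h3 : Computable (fun x : ℕ × ℕ => col x.1 (Nat.unpair x.2).2) :=
      col_comp.comp Computable.fst (Computable.snd.comp hu)
    have h4 : Computable₂ (fun a b : ℕ => decide (a = b)) :=
      (PrimrecRel.decide (Primrec.eq (α := ℕ))).to_comp
    have h5 : Computable (fun x : ℕ × ℕ =>
        decide (col x.1 (Nat.unpair x.2).1 = col x.1 (Nat.unpair x.2).2)) := h4.comp h2 h3
    exact (Primrec.not.to_comp).comp ((Primrec.and.to_comp).comp h1 h5)
  have hrs : ∀ m k, r m k = true ↔ (G.Adj (Nat.unpair k).1 (Nat.unpair k).2 →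
      col m (Nat.unpair k).1 ≠ col m (Nat.unpair k).2) := by
    intro m k
    rw [hr]
    simp only [Bool.not_eq_true', Bool.and_eq_false_imp, decide_eq_false_iff_not, ne_eq]
    rw [hadG]
  -- existence
  obtain ⟨f2, hf2⟩ : ∃ f : ℕ → ℕ, ∀ x y, G.Adj x y → f x % 2 ≠ f y % 2 := by
    obtain ⟨C⟩ := hcol
    refine ⟨fun x => (C x : ℕ), fun x y h he => ?_⟩
    have h1 := C.valid h
    apply h1
    apply Fin.ext
    have hx := (C x).2
    have hy := (C y).2
    rw [Nat.mod_eq_of_lt hx, Nat.mod_eq_of_lt hy] at he
    exact he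
  obtain ⟨mm, hmm, hm1, -⟩ := find_comp (p := fun K m => all r K m) (all_comp hrc) (by
    intro K
    obtain ⟨m, hm⟩ := col_ex f2 (K + 1)
    refine ⟨m, ?_⟩
    rw [all_iff]
    intro k hk
    rw [hrs]
    intro ha
    have h1 := Nat.unpair_left_le k
    have h2 := Nat.unpair_right_le k
    rw [hm _ (by omega), hm _ (by omega)]
    exact hf2 _ _ ha)
  have hm2 : ∀ K k, k < K → r (mm K) k = true := fun K k hk => (all_iff r K (mm K)).1 (hm1 K) k hk
  -- the colouring
  set Kf : ℕ → ℕ := fun x => (bs M (s x) + 1) * (bs M (s x) + 1) with hKf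
  have hKc : Computable Kf := by
    have h1 : Computable (fun x => bs M (s x) + 1) := Computable.succ.comp ((bs_comp hM).comp hs)
    exact (Primrec.nat_mul.to_comp).comp h1 h1
  refine ⟨fun x => col (mm (Kf x)) x + 2 * (s x % 2), ?_, ?_, ?_⟩
  · have h1 : Computable (fun x => col (mm (Kf x)) x) := col_comp.comp (hmm.comp hKc) Computable.id
    have h2 : Computable (fun x => s x % 2) := (Primrec.nat_mod.to_comp).comp hs (Computable.const 2)
    have h3 : Computable (fun x => 2 * (s x % 2)) :=
      (Primrec.nat_mul.to_comp).comp (Computable.const 2) h2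
    exact (Primrec.nat_add.to_comp).comp h1 h3
  · intro x
    have h1 : col (mm (Kf x)) x < 2 := Nat.mod_lt _ (by norm_num)
    show col (mm (Kf x)) x + 2 * (s x % 2) < 4
    omega
  · have key : ∀ x y, G.Adj x y → s x ≤ s y →
        col (mm (Kf x)) x + 2 * (s x % 2) ≠ col (mm (Kf y)) y + 2 * (s y % 2) := by
      intro x y hxy hle
      have hx2 : col (mm (Kf x)) x < 2 := Nat.mod_lt _ (by norm_num)
      have hy2 : col (mm (Kf y)) y < 2 := Nat.mod_lt _ (by norm_num)
      -- s y ≤ s x + 1
      have h1 : s y ≤ s x + 1 := by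
        apply hs2
        rw [bs_succ]
        have h2 := (gb_spec M (bs M (s x))).2 x (hs1 x)
        have h3 := hML x y hxy
        omega
      rcases Nat.lt_or_ge (s x) (s y) with h2 | h2
      · have h3 : s y = s x + 1 := by omega
        rw [h3]
        omega
      · have h3 : s x = s y := by omega
        have hK : Kf x = Kf y := by
          rw [hKf]
          show (bs M (s x) + 1) * (bs M (s x) + 1) = (bs M (s y) + 1) * (bs M (s y) + 1)
          rw [h3]
        have h4 : Nat.pair x y < Kf y := by
          have h5 := Nat.pair_lt_max_add_one_sq x y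
          have h6 : max x y ≤ bs M (s y) := by
            apply max_le
            · rw [← h3]; exact hs1 x
            · exact hs1 y
          have h7 : (max x y + 1) ^ 2 ≤ (bs M (s y) + 1) ^ 2 := Nat.pow_le_pow_left (by omega) 2
          rw [hKf]
          show Nat.pair x y < (bs M (s y) + 1) * (bs M (s y) + 1)
          nlinarith [h5, h7]
        have h5 := (hrs _ _).1 (hm2 (Kf y) _ h4)
        rw [Nat.unpair_pair] at h5
        have h6 := h5 hxy
        simp only at h6
        rw [hK, h3]
        omega
    intro x y hxy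
    rcases Nat.le_total (s x) (s y) with h | h
    · exact key x y hxy h
    · exact (key y x hxy.symm h).symm

end Pool.Agent.H662.GA
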