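import Mathlib

/-!
# Definitions and statements for S14568 (MP_354b3e_lc), negative answer

The neighbourhood function of a computable locally finite graph is enumerable in a monotone way, so if it is
computable from a 1-generic set `A` then it is computable; then the graph has a computable 4-colouring. As
there is a noncomputable 1-generic set below the halting set, the answer is negative.
-/

set_option autoImplicit false
open Classical

namespace Pool.Agent.H662.GA

/-- strings -/
abbrev Str := List Bool

/-- characteristic function -/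
noncomputable def chi (A : Set ℕ) : ℕ →. ℕ := fun n => Part.some (if n ∈ A then (1 : ℕ) else 0)

/-- the halting set, as in the frozen statement -/
noncomputable def hlt : ℕ →. ℕ := fun n => Part.some
  (if ((Denumerable.ofNat Nat.Partrec.Code n).eval n).Dom then (1 : ℕ) else 0)

/-- initial segment of length `k` -/
noncomputable def pfx (A : Set ℕ) (k : ℕ) : Str := (List.range k).map (fun n => decide (n ∈ A))

/-- the `e`-th c.e. set of strings -/
def We (e : ℕ) (σ : Str) : Prop :=
  ((Denumerable.ofNat Nat.Partrec.Code e).eval (Encodable.encode σ)).Dom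

/-- 1-generic -/
def Gen1 (A : Set ℕ) : Prop :=
  ∀ e, (∃ k, We e (pfx A k)) ∨ (∃ k, ∀ τ, pfx A k <+: τ → ¬ We e τ)

/-- ST. One step of the construction is computable from the halting set: there is a function `F` on codes
such that `F (e, σ)` extends `σ` properly (length at least one more), and if some extension of `σ` is in `We e`
then `F (e, σ)` extends a string in `We e` that extends `σ`. Proof: `c (e, σ)` = code of the partial function
(ignoring its input) which searches `(τ, t)` with `σ <+: τ` and `evaln t (code e) (encode τ)` defined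
(computable index by s-m-n, e.g. `Nat.Partrec.Code.curry` or `Nat.Partrec.Code.exists_code` for a partial
recursive function of `(e,σ)` and the input, then curry). Ask the oracle at `c (e, σ)`; if the answer is 1
output the found `τ ++ [false]`, else `σ ++ [false]`. The combination of a partial recursive function with the
oracle answer is `RecursiveIn` (comp, pair, oracle). -/
def S_ST : Prop := ∃ F : ℕ × Str → Str,
  TuringReducible (fun n : ℕ => Part.some (Encodable.encode
    (F ((Encodable.decode (α := ℕ × Str) n).getD (0, []))))) hlt ∧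
  (∀ e σ, σ <+: F (e, σ) ∧ σ.length < (F (e, σ)).length) ∧
  (∀ e σ, (∃ τ, σ <+: τ ∧ We e τ) → ∃ τ, σ <+: τ ∧ τ <+: F (e, σ) ∧ We e τ)

/-- EX (from S_ST). A 1-generic set below the halting set. Proof: `σ_0 = []`, `σ_{e+1} = F (e, σ_e)`,
`A = {n | (σ_{n+1})[n] = true}` (`σ_{n+1}.length > n`). `e ↦ σ_e` is `RecursiveIn {hlt}` by primitive recursion
(`RecursiveIn.prec`), so `chi A ≤ hlt`. All `σ_e` are initial segments of `A`; Gen1: if some extension of
`σ_e` is in `We e` then some initial segment of `σ_{e+1}` is in it; else `σ_e` works for the second case. -/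
def S_EX : Prop := ∃ A : Set ℕ, Gen1 A ∧ TuringReducible (chi A) hlt

/-- NC. A 1-generic set is not computable. Proof: if it is, take `e` with `We e σ` iff `σ` is not an initial
segment of `A` (a computable predicate). No initial segment of `A` is in it, and every string has an
extension in it. -/
def S_NC : Prop := ∀ A, Gen1 A → ¬ ComputablePred (fun n : ℕ => n ∈ A)

/-- USE. Use principle. Proof: induction on `RecursiveIn {chi A} p`. For the oracle:
`Φ (σ, n) = σ[n]` if `n < σ.length` (as 0 or 1), else undefined. pair, comp, prec, rfind: same operations on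
`Φ (σ, ·)`; monotone in `σ`; finitely many values are used. (All proofs that `Φ` is `Partrec` are with the
parameter `σ`.) -/
def S_USE : Prop := ∀ (A : Set ℕ) (p : ℕ →. ℕ), TuringReducible p (chi A) →
  ∃ Φ : Str × ℕ →. ℕ, Partrec Φ ∧
    (∀ σ τ n y, σ <+: τ → y ∈ Φ (σ, n) → y ∈ Φ (τ, n)) ∧
    ∀ n y, y ∈ p n ↔ ∃ k, y ∈ Φ (pfx A k, n)

/-- FE. Encoding of finite sets. Proof: unfold the `Encodable` instances; `encode s = encode (s.sort ..)`. -/
def S_FE : Prop := ∀ s : Finset ℕ, ∃ l : List ℕ, Encodable.encode s = Encodable.encode l ∧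
  ∀ y, y ∈ l ↔ y ∈ s

/-- NB (from S_USE, S_FE). The neighbourhood function is computable. Proof: `Φ` from S_USE. The set of
strings `σ` such that for some `x`, `l`, `y`: `encode l ∈ Φ (σ, x)`, `y ∉ l` and `G.Adj x y`, is c.e.; let `e` be
an index (through `Nat.Partrec.Code.exists_code`, `REPred`). It contains no initial segment of `A`; so
by Gen1 there is `k` such that no extension of `ρ = pfx A k` is in it. Given `x`, search `τ` extending `ρ`, and
`l` with `encode l ∈ Φ (τ, x)` (exists since `p` is total); then `L x = l.filter (G.Adj x)`. -/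
def S_NB : Prop := ∀ A, Gen1 A → ∀ G : SimpleGraph ℕ, ComputablePred (fun p : ℕ × ℕ => G.Adj p.1 p.2) →
  (∃ N : ℕ → Finset ℕ, (∀ x y : ℕ, G.Adj x y ↔ y ∈ N x) ∧
    TuringReducible (fun x : ℕ => Part.some (Encodable.encode (N x))) (chi A)) →
  ∃ L : ℕ → List ℕ, Computable L ∧ ∀ x y, y ∈ L x ↔ G.Adj x y

/-- CL. Computable 4-colouring. Proof: `D 0 = [0]`, `D (s+1) = D s ++ (D s).flatMap L ++ [s+1]`; the rings
`R s = D s \\ D (s-1)` are finite, every vertex is in exactly one ring, an edge joins two vertices of the same
ring or of consecutive rings. Colour the ring `R s` by the first proper 2-colouring of the induced graph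
found in a list of all Boolean assignments (exists as `G` is 2-colourable), with the colours 0,1 for even `s`
and 2,3 for odd `s`. -/
def S_CL : Prop := ∀ G : SimpleGraph ℕ, ComputablePred (fun p : ℕ × ℕ => G.Adj p.1 p.2) →
  ∀ L : ℕ → List ℕ, Computable L → (∀ x y, y ∈ L x ↔ G.Adj x y) → G.Colorable 2 →
  ∃ c : ℕ → ℕ, Computable c ∧ (∀ x, c x < 4) ∧ ∀ x y, G.Adj x y → c x ≠ c y

/-- RS (from S_EX, S_NC, S_NB, S_CL): the frozen statement S14568. -/
def S_RS : Prop :=
    ¬ (∀ A : Set ℕ,
      ¬ ComputablePred (fun n : ℕ => n ∈ A) →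
      TuringReducible (fun n : ℕ => Part.some (if n ∈ A then (1 : ℕ) else 0))
        (fun n : ℕ => Part.some
          (if ((Denumerable.ofNat Nat.Partrec.Code n).eval n).Dom then (1 : ℕ) else 0)) →
      ∃ G : SimpleGraph ℕ,
        ComputablePred (fun p : ℕ × ℕ => G.Adj p.1 p.2) ∧
        (∃ N : ℕ → Finset ℕ, (∀ x y : ℕ, G.Adj x y ↔ y ∈ N x) ∧
          TuringReducible (fun x : ℕ => Part.some (Encodable.encode (N x)))
            (fun n : ℕ => Part.some (if n ∈ A then (1 : ℕ) else 0))) ∧
        (∃ f : ℕ → EuclideanSpace ℝ (Fin 2), Function.Injective f ∧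
          ∃ γ : ∀ u v : ℕ, Path (f u) (f v),
            (∀ u v : ℕ, G.Adj u v → Function.Injective (fun t : unitInterval => γ u v t)) ∧
            (∀ u v w : ℕ, G.Adj u v → ∀ t : unitInterval, γ u v t = f w → w = u ∨ w = v) ∧
            (∀ u v u' v' : ℕ, G.Adj u v → G.Adj u' v' →
              Sym2.mk (u, v) ≠ Sym2.mk (u', v') →
              ∀ t t' : unitInterval, γ u v t = γ u' v' t' →
                ∃ w : ℕ, (w = u ∨ w = v) ∧ (w = u' ∨ w = v') ∧ γ u v t = f w)) ∧
        G.chromaticNumber = 2 ∧
        ∀ k : ℕ, ∀ c : ℕ → ℕ, Computable c → (∀ x, c x < k) →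
          ∃ x y : ℕ, G.Adj x y ∧ c x = c y)

end Pool.Agent.H662.GA
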